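import Pool.Agent.R506.RegSeq

/-!
# `b(k₁, k₂) ≤ b(k₂) + 1` fails for `(k₁, k₂) = (51, 61)`

A regular type B sequence is built from `(1,1)` by attaching, on the left or on the right, the sum
of a block of consecutive terms. We show `b(61) = 8` and `b(51, 61) = 10`.

The terms of a regular sequence with `n` terms are at most `2^(n-2)`; so, in a nine-term sequence, a
term larger than `32` is one of the last two terms attached. The seven-term sequence before that has
total at least `51`, and there are 724 such sequences (`Pool.Agent.R506.RegSeq.gen`); none of them has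
`51` as a block sum together with `61` as a block sum or `10` as a prefix or suffix sum.
-/

set_option autoImplicit false

namespace Pool.Agent.Results.MP_8dcfbf_co.Disproof

/-- `Grown d`: the sequence `d` is obtained from `(1,1)` by finitely many steps; in each step a new
term, equal to the sum of a nonempty block `s` of consecutive terms, is attached at the left or at
the right end. -/
inductive Grown : List ℕ → Prop
  | start : Grown [1, 1]
  | left {d s : List ℕ} : Grown d → s ≠ [] → s <:+: d → Grown (s.sum :: d)
  | right {d s : List ℕ} : Grown d → s ≠ [] → s <:+: d → Grown (d ++ [s.sum])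

/-- Regular type B sequences: those grown from `(1,1)`, and `(1)`. -/
def RegularB (d : List ℕ) : Prop := d = [1] ∨ Grown d

/-- `b ks`: the least `n` such that some permutation of `ks` is a subsequence of some `n`-term regular
type B sequence. -/
noncomputable def b (ks : List ℕ) : ℕ :=
  sInf {n | ∃ d, RegularB d ∧ d.length = n ∧ ∃ l : List ℕ, l.Perm ks ∧ l.Sublist d}

theorem grown_iff {d : List ℕ} : Grown d ↔ R506.RegSeq.GrownB d := by
  constructor
  · intro h
    induction h with
    | start => exact .start
    | left _ hs hp ih => exact .left ih hs hp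
    | right _ hs hp ih => exact .right ih hs hp
  · intro h
    induction h with
    | start => exact .start
    | left _ hs hp ih => exact .left ih hs hp
    | right _ hs hp ih => exact .right ih hs hp

theorem b61 : IsLeast {n | ∃ d, RegularB d ∧ d.length = n ∧ ∃ l : List ℕ, l.Perm [61] ∧ l.Sublist d} 8 := by
  constructor
  · refine ⟨_, Or.inr (grown_iff.2 R506.RegSeq.ex8.toB), rfl, [61], List.Perm.refl _, ?_⟩
    decide
  · rintro n ⟨d, hd, rfl, l, hl, hs⟩
    have h61 : 61 ∈ d := hs.subset (hl.symm.subset (by simp))
    by_contra hlt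
    rcases hd with rfl | hd
    · simp at h61
    · exact R506.RegSeq.seven (grown_iff.1 hd) (by omega) h61

theorem b5161 :
    IsLeast {n | ∃ d, RegularB d ∧ d.length = n ∧ ∃ l : List ℕ, l.Perm [51, 61] ∧ l.Sublist d} 10 := by
  constructor
  · refine ⟨_, Or.inr (grown_iff.2 R506.RegSeq.ex10.toB), rfl, [51, 61], List.Perm.refl _, ?_⟩
    decide
  · rintro n ⟨d, hd, rfl, l, hl, hs⟩
    have h51 : 51 ∈ d := hs.subset (hl.symm.subset (by simp))
    have h61 : 61 ∈ d := hs.subset (hl.symm.subset (by simp))
    by_contra hlt
    rcases hd with rfl | hd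
    · simp at h61
    · exact R506.RegSeq.nine (grown_iff.1 hd) (by omega) h51 h61

/-- `b(61) = 8` and `b(51, 61) = 10`; in particular it is not true that
`b(k₁, k₂) ≤ b(k₂) + 1` for all positive integers `k₁ ≤ k₂`. -/
theorem result :
    b [61] = 8 ∧ b [51, 61] = 10 ∧
      ¬ ∀ k₁ k₂ : ℕ, 0 < k₁ → k₁ ≤ k₂ → b [k₁, k₂] ≤ b [k₂] + 1 := by
  have h1 : b [61] = 8 := b61.csInf_eq
  have h2 : b [51, 61] = 10 := b5161.csInf_eq
  refine ⟨h1, h2, fun h => ?_⟩
  have := h 51 61 (by norm_num) (by norm_num)
  rw [h1, h2] at this
  omega

end Pool.Agent.Results.MP_8dcfbf_co.Disproof
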